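import Pool.Agent.H38.ET8.W247.ET.Stm

/-! # Project ET: the pointwise estimates VA2 -/

set_option autoImplicit false

open Finset

namespace Pool.Agent.W369.ET

open Pool.Agent.W247.ET

/-- Grouping by the sum. -/
lemma group {B : Finset ℕ} {N : ℕ} (hB : B ⊆ Icc 1 N) (F : ℕ → ℝ) :
    ∑ a ∈ B, ∑ b ∈ B, F (a + b) = ∑ n ∈ Icc 1 (2 * N), (rep B n : ℝ) * F n := by
  rw [← Finset.sum_product' B B (fun a b => F (a + b))]
  rw [← Finset.sum_fiberwise_of_maps_to (s := B ×ˢ B) (t := Icc 1 (2 * N))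
    (g := fun p : ℕ × ℕ => p.1 + p.2) (f := fun p : ℕ × ℕ => F (p.1 + p.2))]
  · refine Finset.sum_congr rfl fun n _ => ?_
    rw [Finset.sum_congr rfl (g := fun _ => F n)]
    · rw [Finset.sum_const, nsmul_eq_mul]
      rfl
    · intro p hp
      rw [(Finset.mem_filter.1 hp).2]
  · intro p hp
    obtain ⟨h1, h2⟩ := Finset.mem_product.1 hp
    have h3 := Finset.mem_Icc.1 (hB h1)
    have h4 := Finset.mem_Icc.1 (hB h2)
    exact Finset.mem_Icc.2 ⟨by omega, by omega⟩

lemma abs_le1 {t : ℝ} (ht : 0 ≤ t) : |1 / 2 - t| * Real.exp (-t) ≤ Real.exp (-(t / 2)) := by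
  have h1 : |1 / 2 - t| ≤ Real.exp (t / 2) := by
    have h2 := Real.quadratic_le_exp_of_nonneg (x := t / 2) (by positivity)
    rw [abs_le]
    constructor
    · nlinarith [sq_nonneg (t - 2)]
    · nlinarith [sq_nonneg t]
  calc |1 / 2 - t| * Real.exp (-t) ≤ Real.exp (t / 2) * Real.exp (-t) :=
        mul_le_mul_of_nonneg_right h1 (Real.exp_pos _).le
    _ = Real.exp (-(t / 2)) := by
        rw [← Real.exp_add]
        congr 1
        ring

lemma abs_le2 {t : ℝ} (ht : 0 ≤ t) : |1 / 2 - t| * Real.exp (-t) ≤ 1 / 2 := by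
  have h1 : |1 / 2 - t| ≤ 1 / 2 * Real.exp t := by
    have h2 := Real.quadratic_le_exp_of_nonneg (x := t) ht
    rw [abs_le]
    constructor
    · nlinarith [sq_nonneg (t - 1)]
    · nlinarith [sq_nonneg t]
  calc |1 / 2 - t| * Real.exp (-t) ≤ 1 / 2 * Real.exp t * Real.exp (-t) :=
        mul_le_mul_of_nonneg_right h1 (Real.exp_pos _).le
    _ = 1 / 2 := by
        rw [mul_assoc, ← Real.exp_add, add_neg_cancel, Real.exp_zero, mul_one]

lemma Dd_abs (B : Finset ℕ) (y : ℝ) :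
    |Dd B y| ≤ ∑ a ∈ B, |1 / 2 - 2 * (a : ℝ) * y| * Real.exp (-(2 * (a : ℝ) * y)) := by
  unfold Dd
  refine (Finset.abs_sum_le_sum_abs _ _).trans (Finset.sum_le_sum fun a _ => ?_)
  rw [abs_mul, abs_of_pos (Real.exp_pos _)]

/-- Geometric sums. -/
lemma geom (q : ℝ) (L : ℕ) : (1 - q) * ∑ n ∈ Icc 1 L, q ^ n = q - q ^ (L + 1) := by
  induction L with
  | zero => simp
  | succ L ih =>
    rw [Finset.sum_Icc_succ_top (by omega), mul_add, ih]
    ring

lemma part1 {K : ℕ} {B : Finset ℕ} {N : ℕ} (hB : B ⊆ Icc 1 N) (hK : ∀ n, rep B n ≤ K) {y : ℝ}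
    (hy : 0 < y) :
    Dd B y ^ 2 ≤ K * ∑ n ∈ Icc 1 (2 * N), Real.exp (-((n : ℝ) * y)) := by
  have h1 : |Dd B y| ≤ ∑ a ∈ B, Real.exp (-((a : ℝ) * y)) := by
    refine (Dd_abs B y).trans (Finset.sum_le_sum fun a _ => ?_)
    have h2 := abs_le1 (t := 2 * (a : ℝ) * y) (by positivity)
    have e : 2 * (a : ℝ) * y / 2 = (a : ℝ) * y := by ring
    rwa [e] at h2
  have h3 : Dd B y ^ 2 ≤ (∑ a ∈ B, Real.exp (-((a : ℝ) * y))) ^ 2 := by
    rw [← sq_abs]
    exact pow_le_pow_left₀ (abs_nonneg _) h1 2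
  have h4 : (∑ a ∈ B, Real.exp (-((a : ℝ) * y))) ^ 2 =
      ∑ n ∈ Icc 1 (2 * N), (rep B n : ℝ) * Real.exp (-((n : ℝ) * y)) := by
    rw [← group hB (fun n => Real.exp (-((n : ℝ) * y))), sq, Finset.sum_mul_sum]
    refine Finset.sum_congr rfl fun a _ => Finset.sum_congr rfl fun b _ => ?_
    rw [← Real.exp_add]
    congr 1
    push_cast
    ring
  rw [h4] at h3
  refine h3.trans ?_
  rw [Finset.mul_sum]
  refine Finset.sum_le_sum fun n _ => ?_
  exact mul_le_mul_of_nonneg_right (by exact_mod_cast hK n) (Real.exp_pos _).le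

lemma part2 {K : ℕ} {B : Finset ℕ} {N : ℕ} (hB : B ⊆ Icc 1 N) (hK : ∀ n, rep B n ≤ K) {y : ℝ}
    (hy : 0 < y) : Dd B y ^ 2 ≤ K * N / 2 := by
  have h1 : |Dd B y| ≤ (B.card : ℝ) / 2 := by
    refine (Dd_abs B y).trans ?_
    have h2 : ∑ a ∈ B, |1 / 2 - 2 * (a : ℝ) * y| * Real.exp (-(2 * (a : ℝ) * y)) ≤
        ∑ a ∈ B, (1 / 2 : ℝ) :=
      Finset.sum_le_sum fun a _ => abs_le2 (t := 2 * (a : ℝ) * y) (by positivity)
    refine h2.trans (le_of_eq ?_)
    rw [Finset.sum_const, nsmul_eq_mul]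
    ring
  have h3 : Dd B y ^ 2 ≤ ((B.card : ℝ) / 2) ^ 2 := by
    rw [← sq_abs]
    exact pow_le_pow_left₀ (abs_nonneg _) h1 2
  have h4 : (B.card : ℝ) ^ 2 ≤ 2 * N * K := by
    have h5 := group hB (fun _ => (1 : ℝ))
    simp only [Finset.sum_const, nsmul_eq_mul, mul_one] at h5
    rw [sq, h5]
    have h6 : ∑ n ∈ Icc 1 (2 * N), (rep B n : ℝ) ≤ ∑ n ∈ Icc 1 (2 * N), (K : ℝ) :=
      Finset.sum_le_sum fun n _ => by exact_mod_cast hK n
    refine h6.trans (le_of_eq ?_)
    rw [Finset.sum_const, nsmul_eq_mul, Nat.card_Icc]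
    push_cast
    simp
  nlinarith

lemma part3 {K : ℕ} {B : Finset ℕ} {N : ℕ} (hB : B ⊆ Icc 1 N) (hK : ∀ n, rep B n ≤ K) {y : ℝ}
    (hy : 0 < y) (h2N : 2 / (N : ℝ) ≤ y) (hy1 : y ≤ 1 / 100) :
    Dd B y ^ 2 ≤ 3 / 5 * (y * Hh B N y ^ 2) +
      20 * K * ∑ n ∈ (Icc 1 N).filter (fun n => rep B n = 0), Real.exp (-(2 * (n : ℝ) * y)) := by
  have hNy : 2 ≤ (N : ℝ) * y ∨ N = 0 := by
    rcases Nat.eq_zero_or_pos N with h | h
    · exact Or.inr h
    · left
      have : (0 : ℝ) < N := by exact_mod_cast h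
      rw [div_le_iff₀ this] at h2N
      linarith
  set Z := (Icc 1 N).filter (fun n => rep B n = 0) with hZ
  set z : ℝ := ∑ n ∈ Z, Real.exp (-(2 * (n : ℝ) * y)) with hz
  have hz0 : 0 ≤ z := Finset.sum_nonneg fun n _ => (Real.exp_pos _).le
  rcases Nat.eq_zero_or_pos N with hN0 | hN0
  · -- trivial case
    have hB0 : B = ∅ := by
      rw [hN0] at hB
      exact Finset.subset_empty.1 hB
    have hD : Dd B y = 0 := by
      rw [hB0]; unfold Dd; simp
    rw [hD, zero_pow two_ne_zero]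
    positivity
  have hNy' : 2 ≤ (N : ℝ) * y := hNy.resolve_right (by omega)
  by_cases hcase : 1 / (20 * y) < z
  · have h1 := part1 hB hK hy
    have h2 : ∑ n ∈ Icc 1 (2 * N), Real.exp (-((n : ℝ) * y)) ≤ 1 / y := by
      have e : ∀ n : ℕ, Real.exp (-((n : ℝ) * y)) = Real.exp (-y) ^ n := by
        intro n
        rw [← Real.exp_nat_mul]
        congr 1
        ring
      simp only [e]
      have hg := geom (Real.exp (-y)) (2 * N)
      have hq : 0 < Real.exp (-y) := Real.exp_pos _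
      have hq1 : y * Real.exp (-y) ≤ 1 - Real.exp (-y) := by
        have h3 := Real.add_one_le_exp y
        have h4 : Real.exp (-y) * Real.exp y = 1 := by
          rw [← Real.exp_add, neg_add_cancel, Real.exp_zero]
        nlinarith
      have hq2 : 0 < 1 - Real.exp (-y) := lt_of_lt_of_le (by positivity) hq1
      have hq3 : 0 < Real.exp (-y) ^ (2 * N + 1) := by positivity
      rw [le_div_iff₀ hy]
      have h5 : (1 - Real.exp (-y)) * ((∑ n ∈ Icc 1 (2 * N), Real.exp (-y) ^ n) * y) ≤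
          (1 - Real.exp (-y)) * 1 := by
        rw [← mul_assoc, hg]
        nlinarith
      exact le_of_mul_le_mul_left h5 hq2
    have h3 : Dd B y ^ 2 ≤ K * (1 / y) :=
      h1.trans (mul_le_mul_of_nonneg_left h2 (Nat.cast_nonneg K))
    have h4 : (1 / y) ≤ 20 * z := by
      have : 1 / (20 * y) = 1 / y / 20 := by
        rw [div_div, mul_comm]
      rw [this] at hcase
      linarith
    have h5 : (K : ℝ) * (1 / y) ≤ K * (20 * z) :=
      mul_le_mul_of_nonneg_left h4 (Nat.cast_nonneg K)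
    have h6 : 0 ≤ 3 / 5 * (y * Hh B N y ^ 2) := by positivity
    linarith
  · push Not at hcase
    have hK0 : 0 ≤ 20 * (K : ℝ) * z := by positivity
    set φ : ℝ := ∑ a ∈ B, Real.exp (-(2 * (a : ℝ) * y)) with hφ
    have hPsi : φ ^ 2 = ∑ n ∈ Icc 1 (2 * N), (rep B n : ℝ) * Real.exp (-(2 * (n : ℝ) * y)) := by
      rw [← group hB (fun n => Real.exp (-(2 * (n : ℝ) * y))), sq, hφ, Finset.sum_mul_sum]
      refine Finset.sum_congr rfl fun a _ => Finset.sum_congr rfl fun b _ => ?_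
      rw [← Real.exp_add]
      congr 1
      push_cast
      ring
    have hHh : 2 * φ * Dd B y = Hh B N y := by
      unfold Hh
      rw [← group hB (fun n => (1 - 2 * (n : ℝ) * y) * Real.exp (-(2 * (n : ℝ) * y)))]
      have e1 : 2 * φ * Dd B y = Dd B y * φ + φ * Dd B y := by ring
      rw [e1, hφ, Dd, Finset.sum_mul_sum, Finset.sum_mul_sum, ← Finset.sum_add_distrib]
      refine Finset.sum_congr rfl fun a _ => ?_
      rw [← Finset.sum_add_distrib]
      refine Finset.sum_congr rfl fun b _ => ?_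
      have e2 : Real.exp (-(2 * ((a + b : ℕ) : ℝ) * y)) =
          Real.exp (-(2 * (a : ℝ) * y)) * Real.exp (-(2 * (b : ℝ) * y)) := by
        rw [← Real.exp_add]
        congr 1
        push_cast
        ring
      rw [e2]
      push_cast
      ring
    have hsum : 47 / 100 ≤ y * ∑ n ∈ Icc 1 N, Real.exp (-(2 * (n : ℝ) * y)) := by
      have e : ∀ n : ℕ, Real.exp (-(2 * (n : ℝ) * y)) = Real.exp (-(2 * y)) ^ n := by
        intro n
        rw [← Real.exp_nat_mul]
        congr 1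
        ring
      simp only [e]
      have hg := geom (Real.exp (-(2 * y))) N
      set q := Real.exp (-(2 * y)) with hq
      have hq0 : 0 < q := Real.exp_pos _
      have hq1 : 1 - q ≤ 2 * y := by
        have := Real.add_one_le_exp (-(2 * y))
        linarith
      have hq2 : 98 / 100 ≤ q := by
        have := Real.add_one_le_exp (-(2 * y))
        linarith
      have hq3 : q ^ N ≤ 2 / 100 := by
        have e3 : q ^ N = Real.exp (-(2 * ((N : ℝ) * y))) := by
          rw [hq, ← Real.exp_nat_mul]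
          congr 1
          ring
        have h4 : q ^ N ≤ Real.exp (-4) := by
          rw [e3]
          exact Real.exp_le_exp.2 (by linarith)
        have h5 : Real.exp (-4) ≤ 2 / 100 := by
          rw [Real.exp_neg]
          have h6 : (50 : ℝ) ≤ Real.exp 4 := by
            have h7 := Real.exp_one_gt_d9
            have h8 : Real.exp 4 = Real.exp 1 ^ 4 := by
              rw [← Real.exp_nat_mul]
              norm_num
            rw [h8]
            have h9 : (2.7 : ℝ) ^ 4 ≤ Real.exp 1 ^ 4 :=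
              pow_le_pow_left₀ (by norm_num) (by linarith) 4
            refine le_trans ?_ h9
            norm_num
          rw [inv_le_comm₀ (Real.exp_pos _) (by norm_num)]
          refine le_trans ?_ h6
          norm_num
        exact h4.trans h5
      have hS0 : 0 ≤ ∑ n ∈ Icc 1 N, q ^ n := Finset.sum_nonneg fun n _ => by positivity
      have h10 : q * (1 - q ^ N) ≤ 2 * y * ∑ n ∈ Icc 1 N, q ^ n := by
        have : q * (1 - q ^ N) = (1 - q) * ∑ n ∈ Icc 1 N, q ^ n := by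
          rw [hg]; ring
        rw [this]
        exact mul_le_mul_of_nonneg_right hq1 hS0
      have h11 : 98 / 100 * (98 / 100) ≤ q * (1 - q ^ N) := by
        have h12 : (98 : ℝ) / 100 ≤ 1 - q ^ N := by linarith
        exact mul_le_mul hq2 h12 (by norm_num) hq0.le
      linarith
    have hPsi2 : (∑ n ∈ Icc 1 N, Real.exp (-(2 * (n : ℝ) * y))) - z ≤ φ ^ 2 := by
      have h1 : ∑ n ∈ Icc 1 N, Real.exp (-(2 * (n : ℝ) * y)) =
          z + ∑ n ∈ (Icc 1 N).filter (fun n => ¬ rep B n = 0),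
            Real.exp (-(2 * (n : ℝ) * y)) := by
        rw [hz, hZ]
        exact (Finset.sum_filter_add_sum_filter_not _ _ _).symm
      have h2 : ∑ n ∈ (Icc 1 N).filter (fun n => ¬ rep B n = 0),
            Real.exp (-(2 * (n : ℝ) * y)) ≤
          ∑ n ∈ (Icc 1 N).filter (fun n => ¬ rep B n = 0),
            (rep B n : ℝ) * Real.exp (-(2 * (n : ℝ) * y)) := by
        refine Finset.sum_le_sum fun n hn => ?_
        have h3 : 1 ≤ rep B n := Nat.one_le_iff_ne_zero.2 (Finset.mem_filter.1 hn).2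
        have h4 : (1 : ℝ) ≤ rep B n := by exact_mod_cast h3
        have h5 := Real.exp_pos (-(2 * (n : ℝ) * y))
        nlinarith
      have h3 : ∑ n ∈ (Icc 1 N).filter (fun n => ¬ rep B n = 0),
            (rep B n : ℝ) * Real.exp (-(2 * (n : ℝ) * y)) ≤ φ ^ 2 := by
        rw [hPsi]
        refine Finset.sum_le_sum_of_subset_of_nonneg ?_ fun n _ _ => by positivity
        intro n hn
        have := Finset.mem_Icc.1 (Finset.mem_filter.1 hn).1
        exact Finset.mem_Icc.2 ⟨this.1, by omega⟩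
      rw [h1]
      linarith
    have hyz : y * z ≤ 1 / 20 := by
      have h1 : y * z ≤ y * (1 / (20 * y)) := mul_le_mul_of_nonneg_left hcase hy.le
      have h2 : y * (1 / (20 * y)) = 1 / 20 := by field_simp
      linarith
    have hfin : 5 / 12 ≤ y * φ ^ 2 := by
      have h1 : y * ((∑ n ∈ Icc 1 N, Real.exp (-(2 * (n : ℝ) * y))) - z) ≤ y * φ ^ 2 :=
        mul_le_mul_of_nonneg_left hPsi2 hy.le
      rw [mul_sub] at h1
      linarith
    rw [← hHh]
    have h1 : 3 / 5 * (y * (2 * φ * Dd B y) ^ 2) = 12 / 5 * (y * φ ^ 2) * Dd B y ^ 2 := by ring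
    rw [h1]
    have h2 := sq_nonneg (Dd B y)
    nlinarith

theorem main : VA2_stmt := fun _ _ _ hB hK _ hy =>
  ⟨part1 hB hK hy, part2 hB hK hy, part3 hB hK hy⟩

end Pool.Agent.W369.ET
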